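import Pool.Agent.H854R3.NE.FinRed
import Pool.Agent.H1.NE.LinZ

/-! Density for rings without one, and identities whose coefficients are integers. -/

set_option autoImplicit false
set_option linter.all false

namespace Pool.Agent.H1.NE

open Polynomial Pool.Agent.H854R3.NE

theorem identity_ext' {Q : Type} [Ring Q] {m : ℕ} (nn : Equiv.Perm (Fin m) → ℤ) {C : Type} [Ring C]
    (ρ : C →+* Q) (P : Set C)
    (hid : ∀ a : Fin m → C, (∀ j, a j ∈ P) → ∑ π, nn π • (List.ofFn fun k => a (π k)).prod = 0)
    (K : Set Q) (hK : ∀ κ ∈ K, ∀ κ' ∈ K, κ * κ' = κ' * κ) (hKρ : ∀ κ ∈ K, ∀ r, κ * ρ r = ρ r * κ)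
    (t : Fin m → Q)
    (ht : ∀ j, t j ∈ AddSubgroup.closure {z | ∃ r ∈ P, ∃ κ ∈ K, z = ρ r * κ}) :
    ∑ π, nn π • (List.ofFn fun k => t (π k)).prod = 0 := by
  rw [← mlm_apply]
  refine multilin_closure _ _ ?_ t ht
  intro X hX
  choose r hr κ hκ hX using hX
  rw [mlm_apply]
  have h1 : ∀ π : Equiv.Perm (Fin m), (List.ofFn fun k => X (π k)).prod =
      ρ (List.ofFn fun k => r (π k)).prod * (List.ofFn κ).prod := by
    intro π
    have e1 : (List.ofFn fun k => X (π k)) = (List.ofFn π).map fun i => ρ (r i) * κ i := by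
      rw [List.map_ofFn]
      congr 1
      funext k
      exact hX (π k)
    rw [e1, prod_split (fun i => ρ (r i)) κ (fun i j => hKρ _ (hκ i) _)]
    congr 1
    · rw [map_list_prod, List.map_ofFn, List.map_ofFn]
      rfl
    · have e2 : ((List.ofFn π).map κ).Perm (List.ofFn κ) := by
        rw [List.map_ofFn]
        exact Equiv.Perm.ofFn_comp_perm π κ
      apply List.Perm.prod_eq' e2
      rw [List.map_ofFn, List.pairwise_ofFn]
      intro i j _
      exact hK _ (hκ _) _ (hκ _)
  simp only [h1]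
  have h2 := congrArg (fun z => ρ z * (List.ofFn κ).prod) (hid r hr)
  simp only [map_sum, map_zsmul, Finset.sum_mul, zero_mul, map_zero] at h2
  rw [← h2]
  apply Finset.sum_congr rfl
  intro π _
  rw [smul_mul_assoc]

theorem finite_of_identity' {R M : Type} [Ring R] [AddCommGroup M] [Module R M]
    [IsSimpleModule R M] [DecidableEq (Module.End R M)] {m : ℕ}
    (nn : Equiv.Perm (Fin m) → ℤ) (π0 : Equiv.Perm (Fin m))
    (hinj : ∀ v : M, nn π0 • v = 0 → v = 0)
    (I : AddSubgroup R) (hI1 : ∀ a ∈ I, ∀ t, a * t ∈ I) (hI2 : ∀ a ∈ I, ∀ t, t * a ∈ I)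
    (hIM : ∃ a ∈ I, ∃ v : M, a • v ≠ 0)
    (hid : ∀ t : Fin m → R, (∀ j, t j ∈ I) →
      ∑ π, nn π • (List.ofFn fun k => t (π k)).prod = 0) :
    Module.Finite (Module.End R M) M := by
  classical
  by_contra hinf
  have h1 : ((m + 1 : ℕ) : Cardinal) ≤ Module.rank (Module.End R M) M := by
    apply le_trans (Cardinal.natCast_lt_aleph0).le
    rw [← not_lt]
    intro h
    exact hinf (Module.rank_lt_aleph0_iff.1 h)
  obtain ⟨s, hs, hli⟩ := exists_finset_linearIndependent_of_le_rank h1
  let e : Fin (m + 1) ≃ s := (Fintype.equivFinOfCardEq (by simpa using hs)).symm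
  let v : Fin (m + 1) → M := fun i => (e i : M)
  have hv : LinearIndependent (Module.End R M) v := by
    have h2 : LinearIndependent (Module.End R M) (fun i : s => (i : M)) := hli
    exact h2.comp e e.injective
  -- the ideal acts transitively
  have htrans : ∀ u : M, u ≠ 0 → ∀ w : M, ∃ a ∈ I, a • u = w := by
    intro u hu w
    let N : Submodule R M :=
      { carrier := {z | ∃ a ∈ I, a • u = z}
        add_mem' := by
          rintro _ _ ⟨a, ha, rfl⟩ ⟨b, hb, rfl⟩
          exact ⟨a + b, I.add_mem ha hb, add_smul _ _ _⟩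
        zero_mem' := ⟨0, I.zero_mem, zero_smul _ _⟩
        smul_mem' := by
          rintro c _ ⟨a, ha, rfl⟩
          exact ⟨c * a, hI2 a ha c, mul_smul _ _ _⟩ }
    let N0 : Submodule R M :=
      { carrier := {z | ∀ a ∈ I, a • z = 0}
        add_mem' := by
          intro x y hx hy a ha
          rw [smul_add, hx a ha, hy a ha, add_zero]
        zero_mem' := fun a _ => smul_zero _
        smul_mem' := by
          intro c x hx a ha
          rw [← mul_smul]
          exact hx _ (hI1 a ha c) }
    have hN0 : N0 = ⊥ := by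
      rcases eq_bot_or_eq_top N0 with h | h
      · exact h
      · exfalso
        obtain ⟨a, ha, z, hz⟩ := hIM
        have : z ∈ N0 := h ▸ Submodule.mem_top
        exact hz (this a ha)
    have hN : N = ⊤ := by
      rcases eq_bot_or_eq_top N with h | h
      · exfalso
        have : u ∈ N0 := by
          intro a ha
          have : a • u ∈ N := ⟨a, ha, rfl⟩
          rw [h] at this
          exact (Submodule.mem_bot R).1 this
        rw [hN0] at this
        exact hu ((Submodule.mem_bot R).1 this)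
      · exact h
    have : w ∈ N := hN ▸ Submodule.mem_top
    exact this
  have hf : ∀ k : Fin m, ∃ f : M →ₗ[Module.End R M] M,
      ∀ j, f (v j) = if j = k.succ then v k.succ else 0 := by
    intro k
    obtain ⟨g, hg⟩ := LinearMap.exists_extend ((Module.Basis.span hv).constr ℤ
      (fun j => if j = k.succ then v k.succ else 0))
    refine ⟨g, fun j => ?_⟩
    have h3 := congrArg (fun h => h (Module.Basis.span hv j)) hg
    simp only [LinearMap.comp_apply, Module.Basis.constr_basis] at h3
    rw [← h3]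
    congr 1
    simp [Module.Basis.span_apply]
  choose f hf using hf
  have hr : ∀ k : Fin m, ∃ r ∈ I, ∀ j, r • v j = if j = k.succ then v k.castSucc else 0 := by
    intro k
    obtain ⟨r, hr⟩ := jacobson_density (f k) (Finset.univ.image v)
    obtain ⟨b, hb, hb'⟩ := htrans (v k.succ) (hv.ne_zero _) (v k.castSucc)
    refine ⟨b * r, hI1 b hb r, fun j => ?_⟩
    rw [mul_smul, ← hr (v j) (Finset.mem_image_of_mem v (Finset.mem_univ j)), hf]
    split
    · exact hb'
    · exact smul_zero _
  choose r hrI hr using hr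
  have h2 := hid (fun j => r (π0⁻¹ j)) (fun j => hrI _)
  have h3 := congrArg (fun z => z • v (Fin.last m)) h2
  simp only [Finset.sum_smul, zero_smul] at h3
  have h4 : ∀ π : Equiv.Perm (Fin m),
      (nn π • (List.ofFn fun k => r (π0⁻¹ (π k))).prod) • v (Fin.last m) =
      if π = π0 then nn π0 • v 0 else 0 := by
    intro π
    rw [smul_assoc]
    have h5 := chain_prod v r hr (π0⁻¹ * π)
    have h6 : (List.ofFn fun k => r (π0⁻¹ (π k))).prod • v (Fin.last m) =
      if π0⁻¹ * π = 1 then v 0 else 0 := h5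
    rw [h6]
    by_cases h7 : π = π0
    · rw [if_pos h7, if_pos (by rw [h7, inv_mul_cancel]), h7]
    · rw [if_neg h7, if_neg, smul_zero]
      intro h8
      exact h7 (inv_mul_eq_one.1 h8).symm
  rw [Finset.sum_congr rfl (fun π _ => h4 π), Finset.sum_ite_eq' Finset.univ π0,
    if_pos (Finset.mem_univ _)] at h3
  exact hv.ne_zero 0 (hinj _ h3)

theorem exists_matrixC {C : Type} [Ring C] (PS : Set C)
    (hPS : ∀ u v : C, u ∈ PS → v * u ∈ PS ∧ u * v ∈ PS) {m : ℕ}
    (nn : Equiv.Perm (Fin m) → ℤ) (π0 : Equiv.Perm (Fin m))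
    (hidC : ∀ a : Fin m → C, (∀ j, a j ∈ PS) →
      ∑ π, nn π • (List.ofFn fun k => a (π k)).prod = 0)
    {α : C} (hαP : α ∈ PS) (hα : ∀ k, (nn π0 • α) ^ k ≠ 0) :
    ∃ (K : Type) (_ : Field K) (s : ℕ) (Θ : C →+* Matrix (Fin s) (Fin s) K),
      ∀ k, Θ α ^ k ≠ 0 := by
  classical
  let β : C := nn π0 • α
  obtain ⟨M, i1, i2, hsimp, hM⟩ := exists_simple (C := C) (β := β) hα
  let ρ : C[X] →+* AddMonoid.End M := Module.toAddMonoidEnd C[X] M
  have hρ : ∀ q (v : M), ρ q v = q • v := fun q v => rfl
  obtain ⟨X', hX1, hX2, hX3⟩ := exists_comm_max (Set.range ρ)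
  have hone : (1 : AddMonoid.End M) ∈ X' :=
    hX3 1 (fun s _ => by rw [one_mul, mul_one]) (fun s _ => by rw [one_mul, mul_one])
  have hmul : ∀ a ∈ X', ∀ b ∈ X', a * b ∈ X' := by
    intro a ha b hb
    apply hX3
    · intro s hs
      rw [mul_assoc, hX1 b hb s hs, ← mul_assoc, hX1 a ha s hs, mul_assoc]
    · intro s hs
      rw [mul_assoc, hX2 b hb s hs, ← mul_assoc, hX2 a ha s hs, mul_assoc]
  have hX : ρ X ∈ X' := by
    apply hX3
    · rintro _ ⟨q, rfl⟩
      rw [← map_mul, ← map_mul, X_mul]
    · intro ψ hψ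
      exact (hX1 ψ hψ _ ⟨X, rfl⟩).symm
  let G : Submonoid (AddMonoid.End M) :=
    { carrier := {z | ∃ r : C, ∃ κ ∈ X', z = (ρ.comp Polynomial.C) r * κ}
      mul_mem' := by
        rintro _ _ ⟨r, κ, hκ, rfl⟩ ⟨r', κ', hκ', rfl⟩
        refine ⟨r * r', κ * κ', hmul _ hκ _ hκ', ?_⟩
        have e := hX1 κ hκ ((ρ.comp Polynomial.C) r') ⟨Polynomial.C r', rfl⟩
        rw [map_mul, mul_assoc, ← mul_assoc κ, e]
        simp only [mul_assoc]
      one_mem' := ⟨1, 1, hone, by rw [map_one, one_mul]⟩ }
  let T : Subring (AddMonoid.End M) := Subring.closure (G : Set (AddMonoid.End M))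
  have hT : ∀ t ∈ T, t ∈ AddSubgroup.closure
      {z | ∃ r : C, ∃ κ ∈ X', z = (ρ.comp Polynomial.C) r * κ} := by
    intro t ht
    have h1 := Subring.mem_closure_iff.1 ht
    rw [Submonoid.closure_eq] at h1
    exact h1
  have hCT : ∀ r : C, ρ (Polynomial.C r) ∈ T := fun r =>
    Subring.subset_closure ⟨r, 1, hone, by rw [mul_one]; rfl⟩
  have hXT : ∀ κ ∈ X', κ ∈ T := fun κ hκ =>
    Subring.subset_closure ⟨1, κ, hκ, by rw [map_one, one_mul]⟩
  have hρT : ∀ q : C[X], ρ q ∈ T := by
    intro q
    induction q using Polynomial.induction_on with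
    | C a => exact hCT a
    | add p q hp hq => rw [map_add]; exact add_mem hp hq
    | monomial n a _ =>
      rw [map_mul, map_pow]
      exact mul_mem (hCT a) (pow_mem (hXT _ hX) _)
  have hsT : IsSimpleModule T M := by
    rw [isSimpleModule_iff_toSpanSingleton_surjective]
    obtain ⟨hn, hs⟩ := isSimpleModule_iff_toSpanSingleton_surjective.1 hsimp
    refine ⟨hn, fun x hx y => ?_⟩
    obtain ⟨q, hq⟩ := hs x hx y
    exact ⟨⟨ρ q, hρT q⟩, hq⟩
  -- endomorphisms
  let toE : Module.End T M → AddMonoid.End M := fun φ => φ.toAddMonoidHom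
  have hend : ∀ φ : Module.End T M, toE φ ∈ X' := by
    intro φ
    have h1 : ∀ t ∈ T, toE φ * t = t * toE φ := by
      intro t ht
      ext v
      exact φ.map_smul (⟨t, ht⟩ : T) v
    apply hX3
    · rintro _ ⟨q, rfl⟩
      exact h1 _ (hρT q)
    · intro ψ hψ
      exact h1 _ (hXT ψ hψ)
  have hcomm : ∀ φ ψ : Module.End T M, φ * ψ = ψ * φ := by
    intro φ ψ
    have h1 := hX2 _ (hend φ) _ (hend ψ)
    ext v
    exact congrArg (fun f : AddMonoid.End M => f v) h1
  -- the ideal of `T` given by `P`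
  let gens : Set (AddMonoid.End M) := {z | ∃ r ∈ PS, ∃ κ ∈ X', z = (ρ.comp Polynomial.C) r * κ}
  let J : AddSubgroup (AddMonoid.End M) := AddSubgroup.closure gens
  have hgen1 : ∀ a ∈ gens, ∀ t ∈ T, a * t ∈ J := by
    rintro _ ⟨r, hr, κ, hκ, rfl⟩ t ht
    have ht' := hT t ht
    induction ht' using AddSubgroup.closure_induction with
    | mem z hz =>
      obtain ⟨r', κ', hκ', rfl⟩ := hz
      apply AddSubgroup.subset_closure
      refine ⟨r * r', (hPS r r' hr).2, κ * κ', hmul _ hκ _ hκ', ?_⟩
      have e := hX1 κ hκ ((ρ.comp Polynomial.C) r') ⟨Polynomial.C r', rfl⟩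
      rw [map_mul, mul_assoc, ← mul_assoc κ, e]
      simp only [mul_assoc]
    | zero => rw [mul_zero]; exact J.zero_mem
    | add x y _ _ hx hy =>
      rw [mul_add]
      refine J.add_mem ?_ ?_
      · by_cases h : x ∈ T
        · exact hx h
        · -- handled below
          exact absurd (show x ∈ T from by
            rename_i hx1 hy1
            exact (AddSubgroup.closure_le (K := T.toAddSubgroup)).2 (by
              rintro z ⟨r', κ', hκ', rfl⟩
              exact T.mul_mem (hCT r') (hXT κ' hκ')) hx1) h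
      · by_cases h : y ∈ T
        · exact hy h
        · exact absurd (show y ∈ T from by
            rename_i hx1 hy1
            exact (AddSubgroup.closure_le (K := T.toAddSubgroup)).2 (by
              rintro z ⟨r', κ', hκ', rfl⟩
              exact T.mul_mem (hCT r') (hXT κ' hκ')) hy1) h
    | neg x _ hx =>
      rw [mul_neg]
      refine J.neg_mem ?_
      apply hx
      have := T.neg_mem ht
      rwa [neg_neg] at this
  have hgen2 : ∀ a ∈ gens, ∀ t ∈ T, t * a ∈ J := by
    rintro _ ⟨r, hr, κ, hκ, rfl⟩ t ht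
    have ht' := hT t ht
    clear ht
    induction ht' using AddSubgroup.closure_induction with
    | mem z hz =>
      obtain ⟨r', κ', hκ', rfl⟩ := hz
      apply AddSubgroup.subset_closure
      refine ⟨r' * r, (hPS r r' hr).1, κ' * κ, hmul _ hκ' _ hκ, ?_⟩
      have e := hX1 κ' hκ' ((ρ.comp Polynomial.C) r) ⟨Polynomial.C r, rfl⟩
      rw [map_mul, mul_assoc, ← mul_assoc κ', e]
      simp only [mul_assoc]
    | zero => rw [zero_mul]; exact J.zero_mem
    | add x y _ _ hx hy => rw [add_mul]; exact J.add_mem hx hy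
    | neg x _ hx => rw [neg_mul]; exact J.neg_mem hx
  have hJ1 : ∀ a ∈ J, ∀ t ∈ T, a * t ∈ J := by
    intro a ha t ht
    induction ha using AddSubgroup.closure_induction with
    | mem z hz => exact hgen1 z hz t ht
    | zero => rw [zero_mul]; exact J.zero_mem
    | add x y _ _ hx hy => rw [add_mul]; exact J.add_mem hx hy
    | neg x _ hx => rw [neg_mul]; exact J.neg_mem hx
  have hJ2 : ∀ a ∈ J, ∀ t ∈ T, t * a ∈ J := by
    intro a ha t ht
    induction ha using AddSubgroup.closure_induction with
    | mem z hz => exact hgen2 z hz t ht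
    | zero => rw [mul_zero]; exact J.zero_mem
    | add x y _ _ hx hy => rw [mul_add]; exact J.add_mem hx hy
    | neg x _ hx => rw [mul_neg]; exact J.neg_mem hx
  let I : AddSubgroup T := J.comap (T.toAddSubgroup.subtype)
  have hidJ : ∀ t : Fin m → AddMonoid.End M, (∀ j, t j ∈ J) →
      ∑ π, nn π • (List.ofFn fun k => t (π k)).prod = 0 := by
    intro t ht
    exact identity_ext' nn (ρ.comp Polynomial.C) PS hidC X' hX2
      (fun κ hκ r => hX1 κ hκ _ ⟨Polynomial.C r, rfl⟩) t ht
  have hidT : ∀ t : Fin m → T, (∀ j, t j ∈ I) →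
      ∑ π, nn π • (List.ofFn fun k => t (π k)).prod = 0 := by
    intro t ht
    have h1 := hidJ (fun j => (t j : AddMonoid.End M)) (fun j => AddSubgroup.mem_comap.1 (ht j))
    apply Subtype.val_injective
    rw [AddSubmonoidClass.coe_finsetSum]
    change _ = (0 : AddMonoid.End M)
    rw [← h1]
    apply Finset.sum_congr rfl
    intro π _
    have h2 : (((List.ofFn fun k => t (π k)).prod : T) : AddMonoid.End M) =
        (List.ofFn fun k => (t (π k) : AddMonoid.End M)).prod := by
      have := map_list_prod T.subtype (List.ofFn fun k => t (π k))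
      rw [List.map_ofFn] at this
      exact this
    rw [← h2]
    rfl
  -- `β` and `nn π0` act nontrivially
  have hβ : β = nn π0 • α := rfl
  have hact : ∀ v : M, (Polynomial.C β : C[X]) • v = nn π0 • ((Polynomial.C α : C[X]) • v) := by
    intro v
    have h1 : (Polynomial.C β : C[X]) = nn π0 • (Polynomial.C α : C[X]) := by
      rw [hβ]
      exact map_zsmul (Polynomial.C : C →+* C[X]) (nn π0) α
    rw [h1, smul_assoc]
  have hinj : ∀ v : M, nn π0 • v = 0 → v = 0 := by
    let N : Submodule C[X] M :=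
      { carrier := {z | nn π0 • z = 0}
        add_mem' := by
          intro x y hx hy
          show nn π0 • (x + y) = 0
          rw [smul_add]
          rw [show nn π0 • x = 0 from hx, show nn π0 • y = 0 from hy, add_zero]
        zero_mem' := smul_zero _
        smul_mem' := by
          intro c x hx
          show nn π0 • (c • x) = 0
          rw [smul_comm, show nn π0 • x = 0 from hx, smul_zero] }
    rcases eq_bot_or_eq_top N with h | h
    · intro v hv
      have : v ∈ N := hv
      rw [h] at this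
      exact (Submodule.mem_bot _).1 this
    · exfalso
      obtain ⟨v, hv⟩ := hM 1
      rw [pow_one, hact] at hv
      have : (Polynomial.C α : C[X]) • v ∈ N := h ▸ Submodule.mem_top
      exact hv this
  let iD : DivisionRing (Module.End T M) := Module.End.instDivisionRing
  let iF : Field (Module.End T M) := { iD with mul_comm := hcomm }
  have hfin : Module.Finite (Module.End T M) M := finite_of_identity' nn π0 hinj I
    (fun a ha t => hJ1 a.1 ha t.1 t.2) (fun a ha t => hJ2 a.1 ha t.1 t.2)
    (by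
      obtain ⟨v, hv⟩ := hM 1
      rw [pow_one] at hv
      refine ⟨⟨ρ (Polynomial.C β), hCT β⟩, ?_, v, hv⟩
      exact AddSubgroup.subset_closure ⟨β, by
        rw [hβ, zsmul_eq_mul]
        exact (hPS _ _ hαP).1, 1, hone, by rw [mul_one]; rfl⟩)
    hidT
  let toT : C →+* T := (ρ.comp Polynomial.C).codRestrict T hCT
  let ψ : C →+* Module.End (Module.End T M) M := (Module.toModuleEnd (Module.End T M) M).comp toT
  obtain ⟨s, Θ, hΘ⟩ := matrix_of_comm ψ β (by
    intro k hk
    obtain ⟨v, hv⟩ := hM k
    apply hv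
    have h1 : ∀ j, (ψ β ^ j) v = (Polynomial.C β : C[X]) ^ j • v := by
      intro j
      induction j with
      | zero => rw [pow_zero, pow_zero, one_smul]; rfl
      | succ j ih =>
        rw [pow_succ', pow_succ', mul_smul, ← ih]
        rfl
    rw [← h1, hk]
    rfl)
  refine ⟨_, iF, s, Θ, ?_⟩
  intro k hk
  apply hΘ k
  have e1 : Θ β = nn π0 • Θ α := by
    rw [hβ]
    exact map_zsmul Θ (nn π0) α
  rw [e1, zsmul_eq_mul, (Int.cast_commute (nn π0) (Θ α)).mul_pow, hk, mul_zero]

end Pool.Agent.H1.NE
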