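import Pool.Agent.H1.NE.DensP

/-! Prime rings of the variety are commutative (also in characteristic zero); the variety is
Engel; minimal non-Engel varieties are Cross varieties. -/

set_option autoImplicit false
set_option linter.all false

namespace Pool.Agent.H1.NE

open Pool.Agent.H854R3.NE

/-! ### A nonzero integral identity -/

/-- the free ring on two generators -/
abbrev FAZ := FreeAlgebra ℤ (Fin 2)

/-- first generator -/
def z0 : FAZ := FreeAlgebra.ι ℤ 0
/-- second generator -/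
def z1 : FAZ := FreeAlgebra.ι ℤ 1

/-- the free ring without one -/
abbrev PhiZ : NonUnitalSubring FAZ := sub2 z0 z1

/-- a homomorphism from the free ring -/
noncomputable def toMatZ (p : ℕ) : FAZ →+* Matrix (Fin 2) (Fin 2) (ZMod p) :=
  (FreeAlgebra.lift ℤ ![!![0, 1; 0, 0], !![0, 0; 0, 1]] :
    FAZ →ₐ[ℤ] Matrix (Fin 2) (Fin 2) (ZMod p)).toRingHom

theorem toMatZ_z0 (p : ℕ) : toMatZ p z0 = !![0, 1; 0, 0] := by
  show (FreeAlgebra.lift ℤ ![!![0, 1; 0, 0], !![0, 0; 0, 1]] :
    FAZ →ₐ[ℤ] Matrix (Fin 2) (Fin 2) (ZMod p)) (FreeAlgebra.ι ℤ 0) = _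
  rw [FreeAlgebra.lift_ι_apply]
  rfl

theorem toMatZ_z1 (p : ℕ) : toMatZ p z1 = !![0, 0; 0, 1] := by
  show (FreeAlgebra.lift ℤ ![!![0, 1; 0, 0], !![0, 0; 0, 1]] :
    FAZ →ₐ[ℤ] Matrix (Fin 2) (Fin 2) (ZMod p)) (FreeAlgebra.ι ℤ 1) = _
  rw [FreeAlgebra.lift_ι_apply]
  rfl

theorem not_models_PhiZ {p : ℕ} [hp : Fact p.Prime] {E : Set (RTerm × RTerm)}
    (hW : IsEngel (E ∪ WId p (p ^ 1))) : ¬ Models E PhiZ := by
  intro hM
  let χ : PhiZ →ₙ+* Matrix (Fin 2) (Fin 2) (ZMod p) :=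
    { toFun := fun w => toMatZ p (w : FAZ)
      map_mul' := fun a b => map_mul (toMatZ p) (a : FAZ) b
      map_zero' := map_zero (toMatZ p)
      map_add' := fun a b => map_add (toMatZ p) (a : FAZ) b }
  let T : NonUnitalSubring (Matrix (Fin 2) (Fin 2) (ZMod p)) := χ.range
  have hT : Models E T := hM.of_surjective χ.rangeRestrict
    (NonUnitalRingHom.rangeRestrict_surjective χ)
  have hgen := genBy_sub2 z0 z1
  have hχ0 : χ (sx z0 z1) = !![0, 1; 0, 0] := toMatZ_z0 p
  have hχ1 : χ (sy z0 z1) = !![0, 0; 0, 1] := toMatZ_z1 p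
  have htri : ∀ t ∈ T, t 1 0 = 0 := by
    rintro _ ⟨w, rfl⟩
    refine hgen.induction (P := fun w => χ w 1 0 = 0) ?_ ?_ ?_ ?_ ?_ ?_ w
    · rw [hχ0]; rfl
    · rw [hχ1]; rfl
    · rw [map_zero]; rfl
    · intro a b ha hb; rw [map_add, Matrix.add_apply, ha, hb, add_zero]
    · intro a ha; rw [map_neg, Matrix.neg_apply, ha, neg_zero]
    · intro a b ha hb
      rw [map_mul, Matrix.mul_apply, Fin.sum_univ_two, ha, hb, zero_mul, mul_zero, add_zero]
  have hcard : Fintype.card (ZMod p) = p ^ 1 := by rw [ZMod.card, pow_one]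
  have hIW : IsW p 1 T := isW_tri p 1 hcard T htri
  obtain ⟨n, hn, hE⟩ := hW
  have hmT : Models (E ∪ WId p (p ^ 1)) T := by
    rintro e (he | he)
    · exact hT e he
    · exact models_WId.2 hIW e he
  have h1 := hE T hmT (χ.rangeRestrict (sx z0 z1)) (χ.rangeRestrict (sy z0 z1))
  have h2 := eng_map (NonUnitalSubringClass.subtype T) (χ.rangeRestrict (sx z0 z1))
    (χ.rangeRestrict (sy z0 z1)) n
  rw [h1, map_zero] at h2
  have h3 : eng (!![0, 1; 0, 0] : Matrix (Fin 2) (Fin 2) (ZMod p)) !![0, 0; 0, 1] n = 0 := by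
    rw [← hχ0, ← hχ1]
    exact h2.symm
  have h4 : ∀ k, eng (!![0, 1; 0, 0] : Matrix (Fin 2) (Fin 2) (ZMod p)) !![0, 0; 0, 1] k =
      !![0, 1; 0, 0] := by
    intro k
    induction k with
    | zero => rfl
    | succ k ih =>
      change eng (!![0, 1; 0, 0] : Matrix (Fin 2) (Fin 2) (ZMod p)) !![0, 0; 0, 1] k * _ -
        _ * eng (!![0, 1; 0, 0] : Matrix (Fin 2) (Fin 2) (ZMod p)) !![0, 0; 0, 1] k = _
      rw [ih]
      ext i j
      fin_cases i <;> fin_cases j <;> simp [Matrix.mul_apply, Fin.sum_univ_two]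
  rw [h4] at h3
  have h5 := congrFun (congrFun h3 0) 1
  have h6 : (1 : ZMod p) = 0 := h5
  exact one_ne_zero h6

theorem exists_polyZ {p : ℕ} [hp : Fact p.Prime] {E : Set (RTerm × RTerm)}
    (hW : IsEngel (E ∪ WId p (p ^ 1))) :
    ∃ f : FAZ, f ≠ 0 ∧ ∀ (A : Type) [NonUnitalRing A] (C : Type) [Ring C] (j : A →ₙ+* C),
      Function.Injective j → Models E A → ∀ x y : A, FreeAlgebra.lift ℤ ![j x, j y] f = 0 := by
  by_contra hcon
  push Not at hcon
  apply not_models_PhiZ hW
  intro e he v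
  by_contra hne
  have hw : ((e.1.val v - e.2.val v : PhiZ) : FAZ) ≠ 0 := by
    intro h
    apply hne
    have : e.1.val v - e.2.val v = 0 := Subtype.ext h
    exact sub_eq_zero.1 this
  obtain ⟨A, i1, C, i2, j, hj, hA, x, y, hxy⟩ := hcon _ hw
  let L : FAZ →ₐ[ℤ] C := FreeAlgebra.lift ℤ ![j x, j y]
  have hL : ∀ w : PhiZ, ∃ a : A, L (w : FAZ) = j a := by
    intro w
    refine (genBy_sub2 z0 z1).induction (P := fun w => ∃ a : A, L (w : FAZ) = j a)
      ?_ ?_ ?_ ?_ ?_ ?_ w
    · refine ⟨x, ?_⟩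
      show (FreeAlgebra.lift ℤ ![j x, j y]) (FreeAlgebra.ι ℤ 0) = j x
      rw [FreeAlgebra.lift_ι_apply]
      rfl
    · refine ⟨y, ?_⟩
      show (FreeAlgebra.lift ℤ ![j x, j y]) (FreeAlgebra.ι ℤ 1) = j y
      rw [FreeAlgebra.lift_ι_apply]
      rfl
    · exact ⟨0, by simp⟩
    · rintro a b ⟨a', ha⟩ ⟨b', hb⟩
      refine ⟨a' + b', ?_⟩
      change L ((a : FAZ) + b) = _
      rw [map_add, ha, hb, map_add]
    · rintro a ⟨a', ha⟩
      refine ⟨-a', ?_⟩
      change L (-(a : FAZ)) = _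
      rw [map_neg, ha, map_neg]
    · rintro a b ⟨a', ha⟩ ⟨b', hb⟩
      refine ⟨a' * b', ?_⟩
      change L ((a : FAZ) * b) = _
      rw [map_mul, ha, hb, map_mul]
  choose ψ hψ using hL
  let Ψ : PhiZ →ₙ+* A :=
    { toFun := ψ
      map_mul' := by
        intro a b
        apply hj
        rw [map_mul, ← hψ, ← hψ, ← hψ]
        exact map_mul L (a : FAZ) b
      map_zero' := by
        apply hj
        rw [map_zero, ← hψ]
        exact map_zero L
      map_add' := by
        intro a b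
        apply hj
        rw [map_add, ← hψ, ← hψ, ← hψ]
        exact map_add L (a : FAZ) b }
  apply hxy
  have h1 : Ψ (e.1.val v - e.2.val v) = 0 := by
    rw [map_sub, val_map, val_map, sub_eq_zero]
    exact hA e he _
  have h2 : L ((e.1.val v - e.2.val v : PhiZ) : FAZ) = j (Ψ (e.1.val v - e.2.val v)) := hψ _
  rw [h1, map_zero] at h2
  exact h2

theorem exists_multilinearZ {p : ℕ} [hp : Fact p.Prime] {E : Set (RTerm × RTerm)}
    (hW : IsEngel (E ∪ WId p (p ^ 1))) (A : Type) [NonUnitalRing A] (C : Type) [Ring C]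
    (j : A →ₙ+* C) (hj : Function.Injective j) (hA : Models E A) :
    ∃ (m : ℕ) (c : Equiv.Perm (Fin m) → ℤ), c 1 ≠ 0 ∧ ∀ a : Fin m → C,
      (∀ i, a i ∈ Set.range j) → ∑ π, c π • (List.ofFn fun k => a (π k)).prod = 0 := by
  obtain ⟨f, hf, hfA⟩ := exists_polyZ hW
  let S : Submodule ℤ C := AddSubgroup.toIntSubmodule (j : A →+ C).range
  have hS : ∀ z, z ∈ S ↔ z ∈ Set.range j := fun z => Iff.rfl
  obtain ⟨d, c, hc1, hc⟩ := linearise S f hf (by
    intro a ha
    obtain ⟨x, hx⟩ := (hS _).1 (ha 0)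
    obtain ⟨y, hy⟩ := (hS _).1 (ha 1)
    have : a = ![j x, j y] := by
      funext i
      fin_cases i
      · exact hx.symm
      · exact hy.symm
    rw [this]
    exact hfA A C j hj hA x y)
  exact ⟨d, c, hc1, fun a ha => hc a (fun i => (hS _).2 (ha i))⟩

theorem pow_ne_aux {P : Type} [NonUnitalRing P] {C : Type} [Ring C] [Nontrivial C] (j : P →ₙ+* C)
    (hj : Function.Injective j) (c : ℤ) (α : P) (h : ∀ k, (c ^ (k + 1)) • npw α k ≠ 0) (k : ℕ) :
    (c • j α) ^ k ≠ 0 := by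
  have hnpw : ∀ k, j (npw α k) = (j α) ^ (k + 1) := by
    intro k
    induction k with
    | zero => rw [zero_add, pow_one]; rfl
    | succ k ih =>
      rw [pow_succ, ← ih, ← map_mul]
      rfl
  cases k with
  | zero => rw [pow_zero]; exact one_ne_zero
  | succ k =>
    rw [zsmul_eq_mul, (Int.cast_commute c (j α)).mul_pow, ← hnpw]
    intro h'
    have h1 : (((c ^ (k + 1) : ℤ) : C)) * j (npw α k) = j ((c ^ (k + 1)) • npw α k) := by
      rw [← zsmul_eq_mul]
      exact (map_zsmul j _ _).symm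
    rw [Int.cast_pow] at h1
    rw [h1, ← map_zero j] at h'
    exact h k (hj h')

/-- two-generated rings without zero divisors of characteristic zero are commutative -/
theorem domain_comm0 {E : Set (RTerm × RTerm)} {n p : ℕ} [hp : Fact p.Prime] (hD : D2Engel E n)
    (hW : IsEngel (E ∪ WId p (p ^ 1))) {P : Type} [NonUnitalRing P] (hP : Models E P)
    (hp0 : ∀ (k : ℤ) (x : P), k ≠ 0 → k • x = 0 → x = 0)
    (hdom : ∀ a b : P, a * b = 0 → a = 0 ∨ b = 0) {x y : P}
    (hg : GenBy x y) : x * y = y * x := by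
  classical
  by_contra hne
  set α := x * y - y * x with hα
  have hα0 : α ≠ 0 := fun h => hne (sub_eq_zero.1 h)
  have hαk : ∀ k, npw α k ≠ 0 := by
    intro k
    induction k with
    | zero => exact hα0
    | succ k ih =>
      intro h
      rcases hdom _ _ h with h | h
      · exact ih h
      · exact hα0 h
  let C := Unitization ℤ P
  let j : P →ₙ+* C :=
    { toFun := fun a => (a : Unitization ℤ P)
      map_mul' := fun a b => Unitization.inr_mul ℤ a b
      map_zero' := Unitization.inr_zero ℤ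
      map_add' := fun a b => Unitization.inr_add ℤ a b }
  have hj : Function.Injective j := fun a b h => Unitization.inr_injective h
  obtain ⟨m, c, hc, hid⟩ := exists_multilinearZ (p := p) hW P C j hj hP
  have hβ := pow_ne_aux (C := C) j hj (c 1) α
    (fun k h => hαk k (hp0 _ _ (pow_ne_zero _ hc) h))
  obtain ⟨K, iK, s, Θ, hΘ⟩ := exists_matrixC (C := C) (Set.range j) (by
    rintro _ v ⟨u, rfl⟩
    induction v using Unitization.ind with
    | inl_add_inr k v =>
      refine ⟨⟨k • u + v * u, ?_⟩, ⟨k • u + u * v, ?_⟩⟩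
      · show ((k • u + v * u : P) : Unitization ℤ P) = _
        rw [add_mul]
        show _ = Unitization.inl k * (u : Unitization ℤ P) + (v : Unitization ℤ P) * (u : Unitization ℤ P)
        rw [Unitization.inl_mul_inr, Unitization.inr_add, Unitization.inr_mul]
      · show ((k • u + u * v : P) : Unitization ℤ P) = _
        rw [mul_add]
        show _ = (u : Unitization ℤ P) * Unitization.inl k + (u : Unitization ℤ P) * (v : Unitization ℤ P)
        rw [Unitization.inr_mul_inl, Unitization.inr_add, Unitization.inr_mul]) c 1 hid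
    ⟨α, rfl⟩ hβ
  let Θ₁ : P →ₙ+* Matrix (Fin s) (Fin s) K :=
    { toFun := fun a => Θ (j a)
      map_mul' := by intro a b; rw [map_mul, map_mul]
      map_zero' := by rw [map_zero, map_zero]
      map_add' := by intro a b; rw [map_add, map_add] }
  obtain ⟨k, hk⟩ := no_rep hD hP hg Θ₁
  rw [npw_eq_pow] at hk
  exact hΘ (k + 1) hk

/-! ### Prime rings -/

theorem prime_char {P : Type} [NonUnitalRing P] (hprime : PrimeR P) :
    (∀ (k : ℤ) (x : P), k ≠ 0 → k • x = 0 → x = 0) ∨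
      ∃ p : ℕ, p.Prime ∧ ∀ x : P, p • x = 0 := by
  classical
  by_cases h : ∀ (k : ℤ) (x : P), k ≠ 0 → k • x = 0 → x = 0
  · exact Or.inl h
  right
  push Not at h
  obtain ⟨k, x, hk, hkx, hx⟩ := h
  have hex : ∃ n : ℕ, 0 < n ∧ ∀ z : P, n • z = 0 := by
    refine ⟨k.natAbs, Int.natAbs_pos.2 hk, ?_⟩
    intro z
    have h1 : k • z = 0 := by
      rcases hprime (k • z) x (fun r => by
        rw [smul_mul_assoc, smul_mul_assoc, ← mul_smul_comm, hkx, mul_zero]) with h | h
      · exact h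
      · exact absurd h hx
    rcases Int.natAbs_eq k with h2 | h2
    · rw [h2, natCast_zsmul] at h1
      exact h1
    · rw [h2, neg_smul, natCast_zsmul, neg_eq_zero] at h1
      exact h1
  have hspec := Nat.find_spec hex
  have hmin := fun m => Nat.find_min (H := hex) (m := m)
  set n := Nat.find hex with hn
  have hn1 : n ≠ 1 := by
    intro h1
    apply hx
    have := hspec.2 x
    rwa [h1, one_smul] at this
  refine ⟨n, ?_, hspec.2⟩
  rw [Nat.prime_def_lt']
  refine ⟨by have := hspec.1; omega, ?_⟩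
  intro a ha han hdvd
  obtain ⟨b, hb⟩ := hdvd
  have hb0 : 0 < b := by
    rcases Nat.eq_zero_or_pos b with h0 | h0
    · rw [h0, mul_zero] at hb
      have := hspec.1
      omega
    · exact h0
  have hbn : b < n := by
    rw [hb]
    calc b = 1 * b := (one_mul b).symm
      _ < a * b := by
        apply Nat.mul_lt_mul_of_pos_right _ hb0
        omega
  have h1 : ¬ ∀ z : P, a • z = 0 := fun h => hmin a han ⟨by omega, h⟩
  have h2 : ¬ ∀ z : P, b • z = 0 := fun h => hmin b hbn ⟨hb0, h⟩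
  push Not at h1 h2
  obtain ⟨u, hu⟩ := h1
  obtain ⟨v, hv⟩ := h2
  rcases hprime (a • u) (b • v) (fun r => by
    rw [smul_mul_assoc, smul_mul_assoc, mul_smul_comm, smul_smul, ← hb, hspec.2]) with h | h
  · exact hu h
  · exact hv h

theorem prime_comm' {E : Set (RTerm × RTerm)} {n : ℕ} (hD : D2Engel E n)
    (hW : ∀ p k : ℕ, p.Prime → 1 ≤ k → IsEngel (E ∪ WId p (p ^ k))) {P : Type} [NonUnitalRing P]
    (hP : Models E P) (hprime : PrimeR P) (x y : P) : x * y = y * x := by
  rcases prime_char hprime with h | ⟨p, hp, hpP⟩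
  · haveI : Fact (Nat.Prime 2) := ⟨Nat.prime_two⟩
    have h1 := domain_comm0 (p := 2) hD (hW 2 1 Nat.prime_two le_rfl) (hP.subring (sub2 x y))
      (fun k z hk hz => Subtype.ext (h k z.1 hk (congrArg Subtype.val hz)))
      (fun a b hab => by
        rcases domain_of_prime hD hP hprime (a := (a : P)) (b := (b : P))
          (congrArg Subtype.val hab) with h | h
        · exact Or.inl (Subtype.ext h)
        · exact Or.inr (Subtype.ext h)) (genBy_sub2 x y)
    exact congrArg Subtype.val h1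
  · haveI : Fact p.Prime := ⟨hp⟩
    exact prime_comm hD (hW p 1 hp le_rfl) hP hpP hprime x y

/-! ### The variety is Engel -/

theorem D2_of_ideal {Q : Type} [NonUnitalRing Q] (J : TwoSidedIdeal Q)
    (hJ : ∀ a ∈ J, ∀ b ∈ J, a * b = 0) {u : Q} (hu : u ∈ J) (y : Q) : D2 (sub2 u y) := by
  obtain ⟨Q', inst, φ, hφ, hker⟩ := exists_quot J
  have h1 : ∀ s : sub2 u y, φ (s : Q) * φ y = φ y * φ (s : Q) := by
    intro s
    refine (genBy_sub2 u y).induction (P := fun s => φ (s : Q) * φ y = φ y * φ (s : Q))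
      ?_ ?_ ?_ ?_ ?_ ?_ s
    · show φ u * φ y = φ y * φ u
      rw [(hker u).2 hu, zero_mul, mul_zero]
    · rfl
    · show φ 0 * φ y = φ y * φ 0
      rw [map_zero, zero_mul, mul_zero]
    · intro a b ha hb
      show φ ((a : Q) + b) * φ y = φ y * φ ((a : Q) + b)
      rw [map_add, add_mul, mul_add, ha, hb]
    · intro a ha
      show φ (-(a : Q)) * φ y = φ y * φ (-(a : Q))
      rw [map_neg, neg_mul, mul_neg, ha]
    · intro a b ha hb
      show φ ((a : Q) * b) * φ y = φ y * φ ((a : Q) * b)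
      rw [map_mul, mul_assoc, hb, ← mul_assoc, ha, mul_assoc]
  have h2 : ∀ s t : sub2 u y, φ (s : Q) * φ (t : Q) = φ (t : Q) * φ (s : Q) := by
    intro s t
    refine (genBy_sub2 u y).induction (P := fun t => φ (s : Q) * φ (t : Q) = φ (t : Q) * φ (s : Q))
      ?_ ?_ ?_ ?_ ?_ ?_ t
    · show φ (s : Q) * φ u = φ u * φ (s : Q)
      rw [(hker u).2 hu, zero_mul, mul_zero]
    · exact h1 s
    · show φ (s : Q) * φ 0 = φ 0 * φ (s : Q)
      rw [map_zero, zero_mul, mul_zero]
    · intro a b ha hb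
      show φ (s : Q) * φ ((a : Q) + b) = φ ((a : Q) + b) * φ (s : Q)
      rw [map_add, add_mul, mul_add, ha, hb]
    · intro a ha
      show φ (s : Q) * φ (-(a : Q)) = φ (-(a : Q)) * φ (s : Q)
      rw [map_neg, neg_mul, mul_neg, ha]
    · intro a b ha hb
      show φ (s : Q) * φ ((a : Q) * b) = φ ((a : Q) * b) * φ (s : Q)
      rw [map_mul, ← mul_assoc, ha, mul_assoc, hb, ← mul_assoc]
  have h3 : ∀ g ∈ Comm (sub2 u y), (g : Q) ∈ J := by
    rintro _ ⟨s, t, rfl⟩
    rw [← hker]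
    show φ ((s : Q) * t - t * s) = 0
    rw [map_sub, map_mul, map_mul, h2 s t, sub_self]
  refine ⟨?_, ?_⟩
  · intro a ha b hb
    exact Subtype.ext (hJ _ (h3 a ha) _ (h3 b hb))
  · intro a ha b hb c
    exact Subtype.ext (hJ _ (J.mul_mem_right _ _ (h3 a ha)) _ (h3 b hb))

theorem engel_of {E : Set (RTerm × RTerm)}
    (hW : ∀ p k : ℕ, p.Prime → 1 ≤ k → IsEngel (E ∪ WId p (p ^ k))) : IsEngel E := by
  obtain ⟨n, hD⟩ := exists_D2Engel hW
  apply isEngel_of_forall
  intro A _ x y hA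
  by_contra hcon
  push Not at hcon
  obtain ⟨I, hI, hmax⟩ := exists_max_ideal (fun I : TwoSidedIdeal A => ∀ k, eng x y k ∉ I)
    (by intro k; rw [TwoSidedIdeal.mem_bot]; exact hcon k)
    (by
      intro c _ _ hP U hU k hk
      obtain ⟨I, hI, h⟩ := (hU _).1 hk
      exact hP I hI k h)
  obtain ⟨Q, inst, φ, hφ, hker⟩ := exists_quot I
  have hQ : Models E Q := hA.of_surjective φ hφ
  set X := φ x with hX
  set Y := φ y with hY
  have hne : ∀ k, eng X Y k ≠ 0 := by
    intro k h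
    rw [hX, hY, ← eng_map, hker] at h
    exact hI k h
  -- every nonzero ideal contains some iterated commutator
  have hmax' : ∀ J : TwoSidedIdeal Q, J ≠ ⊥ → ∃ k, eng X Y k ∈ J := by
    intro J hJ
    by_contra hcon2
    push Not at hcon2
    let J' : TwoSidedIdeal A := TwoSidedIdeal.mk' {z | φ z ∈ J}
      (by show φ 0 ∈ J; rw [map_zero]; exact J.zero_mem)
      (by intro a b ha hb; show φ (a + b) ∈ J; rw [map_add]; exact J.add_mem ha hb)
      (by intro a ha; show φ (-a) ∈ J; rw [map_neg]; exact J.neg_mem ha)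
      (by intro a b hb; show φ (a * b) ∈ J; rw [map_mul]; exact J.mul_mem_left _ _ hb)
      (by intro a b ha; show φ (a * b) ∈ J; rw [map_mul]; exact J.mul_mem_right _ _ ha)
    have hJ' : ∀ z, z ∈ J' ↔ φ z ∈ J := fun z => TwoSidedIdeal.mem_mk' _ _ _ _ _ _ z
    have h1 := hmax J' (by
      intro k hk
      rw [hJ', eng_map] at hk
      exact hcon2 k hk) (by
      intro z hz
      rw [hJ', (hker z).2 hz]
      exact J.zero_mem)
    apply hJ
    apply le_antisymm _ bot_le
    intro z hz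
    obtain ⟨z, rfl⟩ := hφ z
    rw [TwoSidedIdeal.mem_bot, hker, ← h1, hJ']
    exact hz
  have hup : ∀ (J : TwoSidedIdeal Q) (k l : ℕ), k ≤ l → eng X Y k ∈ J → eng X Y l ∈ J := by
    intro J k l hkl hk
    obtain ⟨d, rfl⟩ := Nat.exists_eq_add_of_le hkl
    induction d with
    | zero => exact hk
    | succ d ih =>
      have h1 := ih (by omega)
      show eng X Y (k + d) * Y - Y * eng X Y (k + d) ∈ J
      exact J.sub_mem (J.mul_mem_right _ _ h1) (J.mul_mem_left _ _ h1)
  -- no nonzero ideals with square zero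
  have hsemi : ∀ J : TwoSidedIdeal Q, (∀ a ∈ J, ∀ b ∈ J, a * b = 0) → J = ⊥ := by
    intro J hJ
    by_contra hJ0
    obtain ⟨k, hk⟩ := hmax' J hJ0
    have h1 := D2_of_ideal J hJ hk Y
    have h2 := hD.2 _ (hQ.subring (sub2 (eng X Y k) Y)) h1 (sx _ _) (sy _ _)
    have h3 := eng_map (NonUnitalSubringClass.subtype (sub2 (eng X Y k) Y))
      (sx (eng X Y k) Y) (sy (eng X Y k) Y) n
    rw [h2, map_zero] at h3
    apply hne (k + n)
    rw [eng_add]
    exact h3.symm
  have hprime : PrimeR Q := by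
    intro u v huv
    by_contra hcon2
    push Not at hcon2
    obtain ⟨hu, hv⟩ := hcon2
    let K1 : TwoSidedIdeal Q := TwoSidedIdeal.mk' {z | ∀ g, z * g * v = 0}
      (by intro g; rw [zero_mul, zero_mul])
      (by intro x y hx hy g; rw [add_mul, add_mul, hx g, hy g, add_zero])
      (by intro x hx g; rw [neg_mul, neg_mul, hx g, neg_zero])
      (by intro x y hy g; rw [mul_assoc x y g, mul_assoc x, hy g, mul_zero])
      (by intro x y hx g; rw [mul_assoc x y g]; exact hx (y * g))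
    have hK1 : ∀ z, z ∈ K1 ↔ ∀ g, z * g * v = 0 := fun z => TwoSidedIdeal.mem_mk' _ _ _ _ _ _ z
    let K2 : TwoSidedIdeal Q := TwoSidedIdeal.mk' {z | ∀ a ∈ K1, ∀ g, a * g * z = 0}
      (by intro a _ g; rw [mul_zero])
      (by intro x y hx hy a ha g; rw [mul_add, hx a ha g, hy a ha g, add_zero])
      (by intro x hx a ha g; rw [mul_neg, hx a ha g, neg_zero])
      (by intro x y hy a ha g; rw [← mul_assoc, mul_assoc a g x]; exact hy a ha (g * x))
      (by intro x y hx a ha g; rw [← mul_assoc, hx a ha g, zero_mul])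
    have hK2 : ∀ z, z ∈ K2 ↔ ∀ a ∈ K1, ∀ g, a * g * z = 0 :=
      fun z => TwoSidedIdeal.mem_mk' _ _ _ _ _ _ z
    obtain ⟨i, hi⟩ := hmax' K1 (ne_bot_of_mem ((hK1 u).2 huv) hu)
    obtain ⟨j, hj⟩ := hmax' K2 (ne_bot_of_mem ((hK2 v).2 (fun a ha g => (hK1 a).1 ha g)) hv)
    let K3 : TwoSidedIdeal Q := K1 ⊓ K2
    have hK3 : ∀ z, z ∈ K3 ↔ z ∈ K1 ∧ z ∈ K2 := fun z => TwoSidedIdeal.mem_inf Q
    have hw : eng X Y (max i j) ∈ K3 := (hK3 _).2
      ⟨hup K1 _ _ (le_max_left i j) hi, hup K2 _ _ (le_max_right i j) hj⟩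
    have h3 : ∀ a ∈ K3, ∀ b ∈ K3, ∀ g, a * g * b = 0 := fun a ha b hb g =>
      (hK2 b).1 ((hK3 b).1 hb).2 a ((hK3 a).1 ha).1 g
    let G : Set Q := {z | ∃ a ∈ K3, ∃ b ∈ K3, z = a * b}
    have hG1 : ∀ a ∈ G, ∀ b ∈ G, a * b = 0 := by
      rintro _ ⟨a, ha, b, hb, rfl⟩ _ ⟨c, hc, d, hd, rfl⟩
      rw [← mul_assoc, h3 a ha c hc b, zero_mul]
    have hG2 : ∀ a ∈ G, ∀ b ∈ G, ∀ c : Q, a * c * b = 0 := by
      rintro _ ⟨a, ha, b, hb, rfl⟩ _ ⟨c, hc, d, hd, rfl⟩ g
      rw [← mul_assoc, mul_assoc a b g, h3 a ha c hc (b * g), zero_mul]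
    have h4 : TwoSidedIdeal.span G = ⊥ :=
      hsemi _ (fun a ha b hb => span_mul_zero hG1 hG2 ha hb)
    have h5 : K3 = ⊥ := by
      apply hsemi
      intro a ha b hb
      have : a * b ∈ TwoSidedIdeal.span G := TwoSidedIdeal.subset_span ⟨a, ha, b, hb, rfl⟩
      rw [h4] at this
      exact (TwoSidedIdeal.mem_bot Q).1 this
    rw [h5] at hw
    exact hne _ ((TwoSidedIdeal.mem_bot Q).1 hw)
  apply hne 1
  show X * Y - Y * X = 0
  rw [prime_comm' hD hW hQ hprime X Y, sub_self]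

/-- every minimal non-Engel variety is a Cross variety -/
theorem cross_of_minimal {E : Set (RTerm × RTerm)} (h : MinimalNonEngel E) : IsCross E := by
  obtain ⟨h1, h2⟩ := h
  by_contra hcross
  apply h1
  apply engel_of
  intro p k hp hk
  haveI : Fact p.Prime := ⟨hp⟩
  by_contra hne
  apply hne
  apply h2
  · intro R _ hR e he
    exact hR e (Or.inl he)
  · intro hsub
    apply hcross
    apply cross_of_sub (p := p) hk
    intro R _ hR e he
    exact hsub R hR e (Or.inr he)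

end Pool.Agent.H1.NE
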